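import Mathlib

set_option autoImplicit false
open scoped RealInnerProductSpace
open Filter Topology Set

namespace Pool.Agent.Results.MP_e1a21f_an.CritFactorTooSmall

/-- The Euclidean space of dimension `m`. -/
abbrev E (m : ℕ) := EuclideanSpace ℝ (Fin m)

/-- `(x₀, f)` is a problem instance in dimension `m` for the constants `L`, `D`: `f` is convex and
differentiable with `L`-Lipschitz gradient and has a minimizer at distance at most `D` from `x₀`. -/
def IsInstance (L D : ℝ) (m : ℕ) (f : E m → ℝ) (x₀ : E m) : Prop :=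
  ConvexOn ℝ univ f ∧ Differentiable ℝ f ∧
    (∀ x y, ‖gradient f x - gradient f y‖ ≤ L * ‖x - y‖) ∧
    ∃ xs, (∀ y, f xs ≤ f y) ∧ ‖x₀ - xs‖ ≤ D

/-- Gradient descent with step `h / L`. -/
noncomputable def gd {m : ℕ} (L h : ℝ) (f : E m → ℝ) (x₀ : E m) : ℕ → E m
  | 0 => x₀
  | k + 1 => gd L h f x₀ k - (h / L) • gradient f (gd L h f x₀ k)

/-- The extrapolated point `x₀ + c (x_N - x₀)`. -/
noncomputable def xsig {m : ℕ} (L h : ℝ) (N : ℕ) (c : ℝ) (f : E m → ℝ) (x₀ : E m) : E m :=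
  x₀ + c • (gd L h f x₀ N - x₀)

/-- The set of gradient norms at the extrapolated point, over all instances in all dimensions. -/
def gradNorms (L D : ℝ) (N : ℕ) (h c : ℝ) : Set ℝ :=
  {r | ∃ (m : ℕ) (f : E m → ℝ) (x₀ : E m), 1 ≤ m ∧ IsInstance L D m f x₀ ∧
    r = ‖gradient f (xsig L h N c f x₀)‖}

/-- The worst-case gradient norm `p_grad(c)`. -/
noncomputable def pGrad (L D : ℝ) (N : ℕ) (h c : ℝ) : ℝ := sSup (gradNorms L D N h c)

/-- The critical factor. -/
noncomputable def cCrit (L D : ℝ) (N : ℕ) (h : ℝ) : ℝ :=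
  sSup {c : ℝ | 1 ≤ c ∧ pGrad L D N h c = L * D / (N * h * c + 1)}

/-- The statement asked about in Q1 (for given `L`, `D`). -/
def Q1 (L D : ℝ) : Prop :=
  ∀ h : ℝ, 0 < h → h ≤ 1 →
    (∀ N : ℕ, 1 ≤ N → ∀ c : ℝ, 1 ≤ c → c ≤ cCrit L D N h →
      pGrad L D N h c = L * D / (N * h * c + 1)) ∧
    ∃ a b : ℝ, 0 < a ∧ a ≤ b ∧ ∀ N : ℕ, 1 ≤ N →
      1 + a / N ≤ cCrit L D N h ∧ cCrit L D N h ≤ 1 + b / N

/-! ### Projections -/

section proj
variable {m : ℕ} {K : Set (E m)}

/-- data of a projection onto `K` -/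
def IsProj (K : Set (E m)) (P : E m → E m) : Prop :=
  ∀ x, P x ∈ K ∧ ∀ w ∈ K, ⟪x - P x, w - P x⟫ ≤ 0

lemma exists_proj (hne : K.Nonempty) (hc : IsCompact K) (hconv : Convex ℝ K) :
    ∃ P : E m → E m, IsProj K P := by
  have h : ∀ x : E m, ∃ p ∈ K, ∀ w ∈ K, ⟪x - p, w - p⟫ ≤ 0 := by
    intro x
    obtain ⟨p, hp, hp2⟩ := exists_norm_eq_iInf_of_complete_convex hne hc.isComplete hconv x
    exact ⟨p, hp, (norm_eq_iInf_iff_real_inner_le_zero hconv hp).1 hp2⟩
  choose P hP1 hP2 using h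
  exact ⟨P, fun x => ⟨hP1 x, hP2 x⟩⟩

variable {P : E m → E m}

lemma IsProj.key (h : IsProj K P) (x y : E m) : ‖P x - P y‖ ^ 2 ≤ ⟪x - y, P x - P y⟫ := by
  have h1 := (h x).2 (P y) (h y).1
  have h2 := (h y).2 (P x) (h x).1
  have e1 : ⟪x - P x, P y - P x⟫ = -⟪x - P x, P x - P y⟫ := by
    rw [← inner_neg_right, neg_sub]
  have e2 : ⟪x - y, P x - P y⟫ - ‖P x - P y‖ ^ 2 = ⟪x - P x, P x - P y⟫ - ⟪y - P y, P x - P y⟫ := by
    rw [← real_inner_self_eq_norm_sq, ← inner_sub_left, ← inner_sub_left]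
    congr 1
    abel
  linarith

lemma IsProj.lip (h : IsProj K P) (x y : E m) : ‖P x - P y‖ ≤ ‖x - y‖ := by
  have h1 := h.key x y
  have h2 := real_inner_le_norm (x - y) (P x - P y)
  by_contra hn
  push Not at hn
  have h3 : 0 < ‖P x - P y‖ := lt_of_le_of_lt (norm_nonneg _) hn
  have h4 : ‖x - y‖ * ‖P x - P y‖ < ‖P x - P y‖ * ‖P x - P y‖ := mul_lt_mul_of_pos_right hn h3
  nlinarith

lemma IsProj.unique (h : IsProj K P) {x q : E m} (hq : q ∈ K) (hq2 : ∀ w ∈ K, ⟪x - q, w - q⟫ ≤ 0) :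
    P x = q := by
  have h1 := (h x).2 q hq
  have h2 := hq2 (P x) (h x).1
  have e1 : ⟪x - P x, q - P x⟫ + ⟪x - q, P x - q⟫ = ‖P x - q‖ ^ 2 := by
    rw [← real_inner_self_eq_norm_sq]
    have : ⟪x - P x, q - P x⟫ = -⟪x - P x, P x - q⟫ := by rw [← inner_neg_right, neg_sub]
    rw [this, neg_add_eq_sub, ← inner_sub_left]
    congr 1
    abel
  have h3 : ‖P x - q‖ ^ 2 ≤ 0 := by rw [← e1]; linarith
  have h4 : ‖P x - q‖ = 0 := by
    have := norm_nonneg (P x - q)
    nlinarith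
  exact sub_eq_zero.1 (norm_eq_zero.1 h4)

/-- the potential of `L • P` -/
noncomputable def pot (L : ℝ) (P : E m → E m) (x : E m) : ℝ := L * (⟪P x, x⟫ - ‖P x‖ ^ 2 / 2)

lemma pot_lower (h : IsProj K P) {L : ℝ} (hL : 0 < L) (x y : E m) :
    pot L P x + ⟪L • P x, y - x⟫ ≤ pot L P y := by
  have h1 := (h y).2 (P x) (h x).1
  rw [inner_smul_left, pot, pot, conj_trivial, ← mul_add]
  apply mul_le_mul_of_nonneg_left _ hL.le
  have e : ⟪P y, y⟫ - ‖P y‖ ^ 2 / 2 - (⟪P x, x⟫ - ‖P x‖ ^ 2 / 2 + ⟪P x, y - x⟫)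
      = -⟪y - P y, P x - P y⟫ + ‖P x - P y‖ ^ 2 / 2 := by
    rw [← real_inner_self_eq_norm_sq, ← real_inner_self_eq_norm_sq, ← real_inner_self_eq_norm_sq]
    simp only [inner_sub_left, inner_sub_right]
    rw [real_inner_comm y (P y), real_inner_comm y (P x), real_inner_comm (P x) (P y)]
    ring
  have h3 : 0 ≤ ‖P x - P y‖ ^ 2 := sq_nonneg _
  linarith

lemma pot_upper (h : IsProj K P) {L : ℝ} (hL : 0 < L) (x y : E m) :
    pot L P y ≤ pot L P x + ⟪L • P x, y - x⟫ + L / 2 * ‖y - x‖ ^ 2 := by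
  have h1 := pot_lower h hL y x
  have h2 : ⟪P y - P x, y - x⟫ ≤ ‖y - x‖ ^ 2 / 2 + ‖P y - P x‖ ^ 2 / 2 := by
    have := real_inner_le_norm (P y - P x) (y - x)
    nlinarith [sq_nonneg (‖y - x‖ - ‖P y - P x‖)]
  -- direct computation
  have h3 := (h x).2 (P y) (h y).1
  have e : ⟪P x, x⟫ - ‖P x‖ ^ 2 / 2 + ⟪P x, y - x⟫ - (⟪P y, y⟫ - ‖P y‖ ^ 2 / 2)
      = -⟪x - P x, P y - P x⟫ - ⟪P y - P x, y - x⟫ + ‖P y - P x‖ ^ 2 / 2 := by
    rw [← real_inner_self_eq_norm_sq, ← real_inner_self_eq_norm_sq, ← real_inner_self_eq_norm_sq]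
    simp only [inner_sub_left, inner_sub_right]
    rw [real_inner_comm x (P x), real_inner_comm x (P y), real_inner_comm (P x) (P y)]
    ring
  have h4 : (⟪P y, y⟫ - ‖P y‖ ^ 2 / 2) ≤ ⟪P x, x⟫ - ‖P x‖ ^ 2 / 2 + ⟪P x, y - x⟫ + ‖y - x‖ ^ 2 / 2 := by
    linarith
  rw [inner_smul_left, pot, pot, conj_trivial]
  have h5 := mul_le_mul_of_nonneg_left h4 hL.le
  linarith

lemma pot_grad (h : IsProj K P) {L : ℝ} (hL : 0 < L) (x : E m) :
    HasGradientAt (pot L P) (L • P x) x := by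
  rw [hasGradientAt_iff_isLittleO]
  have hO : (fun y => pot L P y - pot L P x - ⟪L • P x, y - x⟫) =O[𝓝 x]
      fun y => ‖y - x‖ ^ 2 := by
    apply Asymptotics.IsBigO.of_bound (L / 2)
    apply Eventually.of_forall
    intro y
    have h1 := pot_lower h hL x y
    have h2 := pot_upper h hL x y
    rw [Real.norm_eq_abs, abs_of_nonneg (by linarith), Real.norm_eq_abs,
      abs_of_nonneg (sq_nonneg _)]
    linarith
  refine hO.trans_isLittleO ?_
  have := (Asymptotics.isLittleO_norm_pow_id (E' := E m) one_lt_two)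
  have h3 : Tendsto (fun y : E m => y - x) (𝓝 x) (𝓝 0) := by
    have : Tendsto (fun y : E m => y - x) (𝓝 x) (𝓝 (x - x)) :=
      (continuous_id.sub continuous_const).continuousAt
    rwa [sub_self] at this
  exact this.comp_tendsto h3

lemma pot_instance (h : IsProj K P) (h0 : (0 : E m) ∈ K) {L D : ℝ} (hL : 0 < L) {x₀ : E m}
    (hx : ‖x₀‖ ≤ D) : IsInstance L D m (pot L P) x₀ := by
  have hg : ∀ x, gradient (pot L P) x = L • P x := fun x => (pot_grad h hL x).gradient
  refine ⟨⟨convex_univ, ?_⟩, fun x => (pot_grad h hL x).differentiableAt, ?_, 0, ?_, ?_⟩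
  · intro x _ y _ a b ha hb hab
    set z := a • x + b • y with hz
    have h1 := pot_lower h hL z x
    have h2 := pot_lower h hL z y
    have h3 := mul_le_mul_of_nonneg_left h1 ha
    have h4 := mul_le_mul_of_nonneg_left h2 hb
    have h5 : a * ⟪L • P z, x - z⟫ + b * ⟪L • P z, y - z⟫ = 0 := by
      rw [← inner_smul_right, ← inner_smul_right, ← inner_add_right]
      have : a • (x - z) + b • (y - z) = 0 := by
        have e : a • (x - z) + b • (y - z) = (a • x + b • y) - (a + b) • z := by module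
        rw [e, hab, one_smul, ← hz, sub_self]
      rw [this, inner_zero_right]
    simp only [smul_eq_mul]
    have h6 : pot L P z = (a + b) * pot L P z := by rw [hab, one_mul]
    rw [h6]
    nlinarith
  · intro x y
    rw [hg, hg, ← smul_sub, norm_smul, Real.norm_eq_abs, abs_of_pos hL]
    exact mul_le_mul_of_nonneg_left (h.lip x y) hL.le
  · intro y
    have h1 := pot_lower h hL 0 y
    have : P 0 = 0 := h.unique h0 (fun w _ => by simp)
    rw [this] at h1
    simpa using h1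
  · simpa using hx

end proj

/-! ### Boundedness of the set of gradient norms -/

lemma gradient_min {m : ℕ} {f : E m → ℝ} {xs : E m}
    (hxs : ∀ y, f xs ≤ f y) : gradient f xs = 0 := by
  have h1 : IsLocalMin f xs := Eventually.of_forall hxs
  have h2 := h1.fderiv_eq_zero
  rw [gradient, h2, map_zero]

lemma bdd (L D : ℝ) (hL : 0 < L) (N : ℕ) (h c : ℝ) (hh : 0 < h) :
    BddAbove (gradNorms L D N h c) := by
  refine ⟨L * (D + |c| * ((1 + h) ^ N * D + D)), ?_⟩
  rintro r ⟨m, f, x₀, _, ⟨_, _, hlip, xs, hxs, hD⟩, rfl⟩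
  have hg0 := gradient_min hxs
  have hgr : ∀ x, ‖gradient f x‖ ≤ L * ‖x - xs‖ := by
    intro x
    have := hlip x xs
    rwa [hg0, sub_zero] at this
  have hD0 : 0 ≤ D := (norm_nonneg _).trans hD
  have hgd : ∀ k, ‖gd L h f x₀ k - xs‖ ≤ (1 + h) ^ k * D := by
    intro k
    induction k with
    | zero => simpa [gd] using hD
    | succ k ih =>
      have e : gd L h f x₀ (k + 1) - xs = (gd L h f x₀ k - xs)
          - (h / L) • gradient f (gd L h f x₀ k) := by
        simp only [gd]; abel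
      rw [e]
      refine (norm_sub_le _ _).trans ?_
      rw [norm_smul, Real.norm_eq_abs, abs_of_pos (div_pos hh hL)]
      have h1 := mul_le_mul_of_nonneg_left (hgr (gd L h f x₀ k)) (div_pos hh hL).le
      have h2 : h / L * (L * ‖gd L h f x₀ k - xs‖) = h * ‖gd L h f x₀ k - xs‖ := by
        field_simp
      rw [h2] at h1
      rw [pow_succ]
      nlinarith
  refine (hgr _).trans (mul_le_mul_of_nonneg_left ?_ hL.le)
  have e : xsig L h N c f x₀ - xs = (x₀ - xs) + c • ((gd L h f x₀ N - xs) - (x₀ - xs)) := by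
    rw [xsig]
    have : gd L h f x₀ N - x₀ = (gd L h f x₀ N - xs) - (x₀ - xs) := by abel
    rw [this]; abel
  rw [e]
  refine (norm_add_le _ _).trans (add_le_add hD ?_)
  rw [norm_smul, Real.norm_eq_abs]
  apply mul_le_mul_of_nonneg_left _ (abs_nonneg _)
  exact (norm_sub_le _ _).trans (add_le_add (hgd N) hD)

/-! ### Instances from finitely many vectors -/

lemma inst_of_data {m : ℕ} (hm : 1 ≤ m) {L D : ℝ} (hL : 0 < L) (hD : 0 < D) {N : ℕ} {c : ℝ}
    {G Z : ℕ → E m} {σ : E m} (hZ : ∀ j, Z (j + 1) = Z j + G j)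
    (ha : ∀ i < N, ∀ j < N, ⟪G i - G j, Z j⟫ ≤ 0)
    (hb : ∀ j < N, ⟪σ - G j, Z j⟫ ≤ 0)
    (hc : ∀ j < N, 0 ≤ ⟪G j, Z j⟫)
    (hσ : σ = Z N + c • (Z 0 - Z N)) (hN : 0 < ‖Z N‖) :
    L * (D / ‖Z N‖ * ‖σ‖) ∈ gradNorms L D N 1 c := by
  set s := D / ‖Z N‖ with hs
  have hs0 : 0 < s := div_pos hD hN
  set S : Set (E m) := {0} ∪ {s • σ} ∪ (fun i => s • G i) '' {i | i < N} with hS
  have hSfin : S.Finite := by
    refine ((finite_singleton _).union (finite_singleton _)).union ?_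
    exact (finite_lt_nat N).image _
  set K := convexHull ℝ S with hK
  have h0S : (0 : E m) ∈ S := Or.inl (Or.inl rfl)
  have hσS : s • σ ∈ S := Or.inl (Or.inr rfl)
  have hGS : ∀ i < N, s • G i ∈ S := fun i hi => Or.inr ⟨i, hi, rfl⟩
  have hSK : S ⊆ K := subset_convexHull ℝ S
  obtain ⟨P, hP⟩ := exists_proj (K := K) ⟨0, hSK h0S⟩ (hSfin.isCompact_convexHull ℝ) (convex_convexHull ℝ S)
  have hPG : ∀ j < N, P (s • Z (j + 1)) = s • G j := by
    intro j hj
    apply hP.unique (hSK (hGS j hj))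
    have hsub : K ⊆ {w : E m | ⟪s • Z j, w⟫ ≤ ⟪s • Z j, s • G j⟫} := by
      apply convexHull_min
      · intro w hw
        change ⟪s • Z j, w⟫ ≤ ⟪s • Z j, s • G j⟫
        rcases hw with (hw | hw) | ⟨i, hi, rfl⟩
        · rw [mem_singleton_iff.1 hw, inner_zero_right, real_inner_smul_left,
            real_inner_smul_right, real_inner_comm]
          have := hc j hj
          positivity
        · rw [mem_singleton_iff.1 hw, real_inner_smul_left, real_inner_smul_right,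
            real_inner_smul_left, real_inner_smul_right]
          have := hb j hj
          rw [inner_sub_left, real_inner_comm (Z j) σ, real_inner_comm (Z j) (G j)] at this
          apply mul_le_mul_of_nonneg_left _ hs0.le
          apply mul_le_mul_of_nonneg_left _ hs0.le
          linarith
        · have := ha i hi j hj
          rw [inner_sub_left, real_inner_comm (Z j) (G i), real_inner_comm (Z j) (G j)] at this
          simp only [real_inner_smul_left, real_inner_smul_right]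
          apply mul_le_mul_of_nonneg_left _ hs0.le
          apply mul_le_mul_of_nonneg_left _ hs0.le
          linarith
      · have hlin : IsLinearMap ℝ (fun w : E m => ⟪s • Z j, w⟫) :=
          ⟨fun a b => inner_add_right _ _ _, fun c a => real_inner_smul_right _ _ _⟩
        exact convex_halfSpace_le hlin _
    intro w hw
    have h1 : ⟪s • Z j, w⟫ ≤ ⟪s • Z j, s • G j⟫ := hsub hw
    have : s • Z (j + 1) - s • G j = s • Z j := by rw [hZ, smul_add]; abel
    rw [this, inner_sub_right]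
    linarith
  have hPσ : P (s • σ) = s • σ := by
    apply hP.unique (hSK hσS)
    intro w _
    rw [sub_self, inner_zero_left]
  have hg : ∀ x, gradient (pot L P) x = L • P x := fun x => (pot_grad hP hL x).gradient
  have hgd : ∀ k ≤ N, gd L 1 (pot L P) (s • Z N) k = s • Z (N - k) := by
    intro k
    induction k with
    | zero => intro _; rfl
    | succ k ih =>
      intro hk
      have h1 := ih (by omega)
      obtain ⟨j, hj⟩ : ∃ j, N - k = j + 1 := ⟨N - k - 1, by omega⟩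
      have hj2 : N - (k + 1) = j := by omega
      simp only [gd]
      rw [h1, hg, hj, hPG j (by omega), hj2, smul_smul, one_div, inv_mul_cancel₀ hL.ne', one_smul,
        hZ, smul_add]
      abel
  refine ⟨m, pot L P, s • Z N, hm, ?_, ?_⟩
  · apply pot_instance hP (hSK h0S) hL
    rw [norm_smul, Real.norm_eq_abs, abs_of_pos hs0, hs]
    field_simp
    exact le_rfl
  · have hx : xsig L 1 N c (pot L P) (s • Z N) = s • σ := by
      rw [xsig, hgd N le_rfl, Nat.sub_self, hσ]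
      module
    rw [hx, hg, hPσ, norm_smul, norm_smul, Real.norm_eq_abs, Real.norm_eq_abs, abs_of_pos hL,
      abs_of_pos hs0]

/-- planar vectors -/
noncomputable def vec (a b : ℝ) : E 2 := !₂[a, b]

lemma vec_inner (a b c d : ℝ) : ⟪vec a b, vec c d⟫ = a * c + b * d := by
  simp [vec, PiLp.inner_apply, Fin.sum_univ_two]
  ring

lemma vec_sub (a b c d : ℝ) : vec a b - vec c d = vec (a - c) (b - d) := by
  ext i; fin_cases i <;> simp [vec]

lemma vec_add (a b c d : ℝ) : vec a b + vec c d = vec (a + c) (b + d) := by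
  ext i; fin_cases i <;> simp [vec]

lemma vec_smul (t a b : ℝ) : t • vec a b = vec (t * a) (t * b) := by
  ext i; fin_cases i <;> simp [vec]

lemma vec_norm_sq (a b : ℝ) : ‖vec a b‖ ^ 2 = a ^ 2 + b ^ 2 := by
  rw [← real_inner_self_eq_norm_sq, vec_inner]; ring

/-! ### The second-order data -/

/-- abscissae -/
noncomputable def XX (δ : ℝ) (j : ℕ) : ℝ := 1 + δ + j
/-- slopes -/
noncomputable def th (δ : ℝ) (j : ℕ) : ℝ := ∑ k ∈ Finset.range j, 1 / XX δ (k + 1)
/-- sum of squares -/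
noncomputable def SSq (δ : ℝ) (j : ℕ) : ℝ := ∑ k ∈ Finset.range j, th δ k ^ 2

lemma XX_pos {δ : ℝ} (hδ : 0 < δ) (j : ℕ) : 0 < XX δ j := by unfold XX; positivity

lemma th_succ (δ : ℝ) (j : ℕ) : th δ (j + 1) = th δ j + 1 / XX δ (j + 1) := by
  rw [th, Finset.sum_range_succ, ← th]

lemma SSq_succ (δ : ℝ) (j : ℕ) : SSq δ (j + 1) = SSq δ j + th δ j ^ 2 := by
  rw [SSq, Finset.sum_range_succ, ← SSq]

lemma th_strictMono {δ : ℝ} (hδ : 0 < δ) : StrictMono (th δ) := by
  apply strictMono_nat_of_lt_succ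
  intro n
  rw [th_succ]
  have := XX_pos hδ (n + 1)
  have : 0 < 1 / XX δ (n + 1) := by positivity
  linarith

lemma th_nonneg {δ : ℝ} (hδ : 0 < δ) (j : ℕ) : 0 ≤ th δ j := by
  apply Finset.sum_nonneg
  intro k _
  have := XX_pos hδ (k + 1)
  positivity

/-- Existence of an element of the set of gradient norms exceeding the bound. -/
lemma exists_large {L D : ℝ} (hL : 0 < L) (hD : 0 < D) {N : ℕ} (hN : 1 ≤ N) {δ : ℝ} (hδ : 0 < δ)
    (hS : (1 - δ ^ 2) * XX δ N * th δ N ^ 2 < SSq δ N) :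
    ∃ r ∈ gradNorms L D N 1 (1 + δ / N), L * D / (N * 1 * (1 + δ / N) + 1) < r := by
  have hN0 : (0 : ℝ) < N := by exact_mod_cast hN
  have hXN := XX_pos hδ N
  have hXNe : (N : ℝ) * 1 * (1 + δ / N) + 1 = XX δ N := by unfold XX; field_simp; ring
  set S := SSq δ N with hSdef
  set T := th δ N with hT
  have hS0 : 0 ≤ S := Finset.sum_nonneg fun k _ => sq_nonneg _
  -- choice of η
  obtain ⟨η, hη0, hη⟩ : ∃ η : ℝ, 0 < η ∧
      (1 - δ ^ 2) * XX δ N * T ^ 2 + 2 * η * XX δ N < S := by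
    refine ⟨(S - (1 - δ ^ 2) * XX δ N * T ^ 2) / (4 * XX δ N), by
      apply div_pos _ (by positivity); linarith, ?_⟩
    have : 2 * ((S - (1 - δ ^ 2) * XX δ N * T ^ 2) / (4 * XX δ N)) * XX δ N
        = (S - (1 - δ ^ 2) * XX δ N * T ^ 2) / 2 := by field_simp; ring
    rw [this]; linarith
  set ξ : ℕ → ℝ := fun j => -η - δ / (2 * N) * S - SSq δ j / 2 with hξ
  set α : ℕ → ℝ := fun j => -(th δ j ^ 2) / 2 with hα
  set P : ℕ → ℝ := fun j => th δ j + 1 with hP
  set Y : ℕ → ℝ := fun j => XX δ j * th δ j with hY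
  set Pσ : ℝ := -(δ / N) * Y N with hPσ
  have hPσ0 : Pσ ≤ 0 := by
    have h1 : 0 ≤ Y N := mul_nonneg hXN.le (th_nonneg hδ N)
    have h2 : 0 < δ / N := by positivity
    rw [hPσ]; nlinarith
  -- eventual inequalities
  have hev : ∀ᶠ e : ℝ in 𝓝[>] 0,
      (∀ i ∈ Finset.range N, ∀ j ∈ Finset.range N, i ≠ j →
        -(1/2) * XX δ j * (th δ i - th δ j) ^ 2 + e ^ 2 * ((α i - α j) * ξ j) < 0) ∧
      (∀ j ∈ Finset.range N, XX δ j * (-η + Pσ * th δ j - th δ j ^ 2 / 2 - th δ j)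
        + e ^ 2 * ((-η - α j) * ξ j) < 0) ∧
      (∀ j ∈ Finset.range N, 0 < (1 + e ^ 2 * α j) * (XX δ j + e ^ 2 * ξ j) + e ^ 2 * (P j * Y j)) ∧
      0 < 2 * (-η) * XX δ N ^ 2 + Pσ ^ 2 * XX δ N ^ 2 - 2 * XX δ N * ξ N - Y N ^ 2
        + e ^ 2 * (η ^ 2 * XX δ N ^ 2 - ξ N ^ 2) ∧
      0 < XX δ N + e ^ 2 * ξ N := by
    have hlim : ∀ (f : ℝ → ℝ), Continuous f → 0 < f 0 → ∀ᶠ e : ℝ in 𝓝[>] 0, 0 < f e := by
      intro f hf h0
      exact (hf.continuousAt.eventually (lt_mem_nhds h0)).filter_mono nhdsWithin_le_nhds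
    have hlim' : ∀ (f : ℝ → ℝ), Continuous f → f 0 < 0 → ∀ᶠ e : ℝ in 𝓝[>] 0, f e < 0 := by
      intro f hf h0
      exact (hf.continuousAt.eventually (gt_mem_nhds h0)).filter_mono nhdsWithin_le_nhds
    refine Filter.Eventually.and ?_ (Filter.Eventually.and ?_ (Filter.Eventually.and ?_
      (Filter.Eventually.and ?_ ?_)))
    · rw [Filter.eventually_all_finset]
      intro i _
      rw [Filter.eventually_all_finset]
      intro j _
      by_cases hij : i = j
      · exact Filter.Eventually.of_forall fun e h => absurd hij h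
      · refine (hlim' _ (by fun_prop) ?_).mono fun e he _ => he
        have h1 : th δ i - th δ j ≠ 0 := sub_ne_zero.2 ((th_strictMono hδ).injective.ne hij)
        have h2 : 0 < (th δ i - th δ j) ^ 2 := by positivity
        have h3 := XX_pos hδ j
        have : 0 < XX δ j * (th δ i - th δ j) ^ 2 := by positivity
        norm_num
        linarith
    · rw [Filter.eventually_all_finset]
      intro j _
      refine hlim' _ (by fun_prop) ?_
      have h3 := XX_pos hδ j
      have h4 := th_nonneg hδ j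
      have h5 : Pσ * th δ j ≤ 0 := mul_nonpos_of_nonpos_of_nonneg hPσ0 h4
      have h6 : -η + Pσ * th δ j - th δ j ^ 2 / 2 - th δ j < 0 := by
        have := sq_nonneg (th δ j)
        linarith
      have := mul_neg_of_pos_of_neg h3 h6
      norm_num
      linarith
    · rw [Filter.eventually_all_finset]
      intro j _
      refine hlim _ (by fun_prop) ?_
      have h3 := XX_pos hδ j
      norm_num
      exact h3
    · refine hlim _ (by fun_prop) ?_
      -- main computation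
      have e1 : ξ N = -η - δ / (2 * N) * S - S / 2 := rfl
      have e2 : Y N = XX δ N * T := rfl
      have e3 : Pσ ^ 2 = δ ^ 2 * (XX δ N / N) ^ 2 * T ^ 2 := by
        rw [hPσ, e2]; field_simp
      have h1 : 1 ≤ XX δ N / N := by
        rw [le_div_iff₀ hN0]; unfold XX; linarith
      have h2 : 1 ≤ (XX δ N / N) ^ 2 := one_le_pow₀ h1
      have h3 : δ ^ 2 * T ^ 2 ≤ Pσ ^ 2 := by
        rw [e3]
        have : 0 ≤ δ ^ 2 * T ^ 2 := by positivity
        nlinarith
      have h4 : 0 ≤ δ / (2 * N) * S := by positivity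
      have h5 : (1 - δ ^ 2) * XX δ N * T ^ 2 + 2 * η * XX δ N < S + 2 * (δ / (2 * N) * S) + 2 * η := by
        linarith
      have h6 := mul_lt_mul_of_pos_left h5 hXN
      have h7 := mul_le_mul_of_nonneg_right h3 (sq_nonneg (XX δ N))
      rw [e1, e2]
      norm_num
      nlinarith
    · refine hlim _ (by fun_prop) ?_
      norm_num
      exact hXN
  obtain ⟨e, ⟨h1, h2, h3, h4, h5⟩, he0⟩ := (hev.and self_mem_nhdsWithin).exists
  have he : 0 < e := he0
  have he2 : 0 < e ^ 2 := by positivity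
  set G : ℕ → E 2 := fun j => vec (1 + e ^ 2 * α j) (e * P j) with hG
  set Z : ℕ → E 2 := fun j => vec (XX δ j + e ^ 2 * ξ j) (e * Y j) with hZ
  set σ : E 2 := vec (1 + e ^ 2 * (-η)) (e * Pσ) with hσ
  have hZs : ∀ j, Z (j + 1) = Z j + G j := by
    intro j
    simp only [hZ, hG, vec_add]
    congr 1
    · simp only [hξ, hα, SSq_succ, XX]; push_cast; ring
    · simp only [hY, hP, th_succ]
      have hX := (XX_pos hδ (j + 1)).ne'
      have : XX δ (j + 1) = XX δ j + 1 := by unfold XX; push_cast; ring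
      rw [mul_add (XX δ (j + 1)), mul_one_div_cancel hX, this]; ring
  have hmem := inst_of_data (m := 2) (by norm_num) hL hD (N := N) (c := 1 + δ / N) (G := G) (Z := Z)
    (σ := σ) hZs ?_ ?_ ?_ ?_ ?_
  · refine ⟨_, hmem, ?_⟩
    rw [hXNe]
    have hZN : 0 < ‖Z N‖ := by
      rw [norm_pos_iff]
      intro h
      have := vec_norm_sq (XX δ N + e ^ 2 * ξ N) (e * Y N)
      change ‖Z N‖ ^ 2 = _ at this
      rw [h, norm_zero] at this
      have a1 := pow_pos h5 2
      have a2 := sq_nonneg (e * Y N)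
      norm_num at this
      linarith
    have hkey : ‖Z N‖ ^ 2 < (XX δ N * ‖σ‖) ^ 2 := by
      have hσn : ‖σ‖ ^ 2 = _ := vec_norm_sq (1 + e ^ 2 * (-η)) (e * Pσ)
      have := vec_norm_sq (XX δ N + e ^ 2 * ξ N) (e * Y N)
      change ‖Z N‖ ^ 2 = _ at this
      rw [this, mul_pow (XX δ N), hσn]
      have := mul_pos he2 h4
      nlinarith
    have hkey2 : ‖Z N‖ < XX δ N * ‖σ‖ :=
      lt_of_pow_lt_pow_left₀ 2 (by positivity) hkey
    rw [mul_div_assoc]
    apply mul_lt_mul_of_pos_left _ hL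
    rw [div_mul_eq_mul_div, div_lt_div_iff₀ hXN hZN, mul_assoc]
    apply mul_lt_mul_of_pos_left _ hD
    linarith
  · intro i hi j hj
    simp only [hG, hZ, vec_sub, vec_inner]
    by_cases hij : i = j
    · rw [hij]; simp
    have := h1 i (Finset.mem_range.2 hi) j (Finset.mem_range.2 hj) hij
    have e1 : (1 + e ^ 2 * α i - (1 + e ^ 2 * α j)) * (XX δ j + e ^ 2 * ξ j)
        + (e * P i - e * P j) * (e * Y j)
        = e ^ 2 * (-(1/2) * XX δ j * (th δ i - th δ j) ^ 2 + e ^ 2 * ((α i - α j) * ξ j)) := by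
      simp only [hα, hP, hY]; ring
    rw [e1]
    exact (mul_neg_of_pos_of_neg he2 this).le
  · intro j hj
    simp only [hG, hZ, hσ, vec_sub, vec_inner]
    have := h2 j (Finset.mem_range.2 hj)
    have e1 : (1 + e ^ 2 * -η - (1 + e ^ 2 * α j)) * (XX δ j + e ^ 2 * ξ j)
        + (e * Pσ - e * P j) * (e * Y j)
        = e ^ 2 * (XX δ j * (-η + Pσ * th δ j - th δ j ^ 2 / 2 - th δ j)
        + e ^ 2 * ((-η - α j) * ξ j)) := by
      simp only [hα, hP, hY]; ring
    rw [e1]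
    exact (mul_neg_of_pos_of_neg he2 this).le
  · intro j hj
    simp only [hG, hZ, vec_inner]
    have := h3 j (Finset.mem_range.2 hj)
    have e1 : (1 + e ^ 2 * α j) * (XX δ j + e ^ 2 * ξ j) + e * P j * (e * Y j)
        = (1 + e ^ 2 * α j) * (XX δ j + e ^ 2 * ξ j) + e ^ 2 * (P j * Y j) := by ring
    rw [e1]; exact this.le
  · simp only [hZ, hσ, vec_sub, vec_smul, vec_add]
    congr 1
    · simp only [hξ, XX, SSq, Finset.range_zero, Finset.sum_empty]
      rw [show ∑ k ∈ Finset.range N, th δ k ^ 2 = S from rfl]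
      field_simp
      push_cast
      ring
    · have : Y 0 = 0 := by simp [hY, th]
      rw [this, hPσ]; field_simp; ring
  · rw [norm_pos_iff]
    intro h
    have := vec_norm_sq (XX δ N + e ^ 2 * ξ N) (e * Y N)
    change ‖Z N‖ ^ 2 = _ at this
    rw [h, norm_zero] at this
    have a1 := pow_pos h5 2
    have a2 := sq_nonneg (e * Y N)
    norm_num at this
    linarith

/-! ### Asymptotics -/

lemma th_lower {δ : ℝ} (hδ : 0 < δ) (hδ1 : δ ≤ 1) (n : ℕ) : th 1 n ≤ th δ n := by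
  apply Finset.sum_le_sum
  intro k _
  apply one_div_le_one_div_of_le (XX_pos hδ _)
  unfold XX; linarith

lemma th_tendsto : Tendsto (th 1) atTop atTop := by
  have h2 : ∀ n : ℕ, th 1 n = ∑ i ∈ Finset.range (n + 2), (1 / ((i : ℝ) + 1)) - 3 / 2 := by
    intro n
    induction n with
    | zero => simp [th, Finset.sum_range_succ]; norm_num
    | succ n ih =>
      rw [th_succ, ih, show n + 1 + 2 = (n + 2) + 1 by ring, Finset.sum_range_succ _ (n + 2)]
      unfold XX
      push_cast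
      ring
  have h3 : Tendsto (fun n : ℕ => ∑ i ∈ Finset.range (n + 2), (1 / ((i : ℝ) + 1)) - 3 / 2)
      atTop atTop := by
    apply tendsto_atTop_add_const_right
    exact (tendsto_add_atTop_iff_nat 2).2 Real.tendsto_sum_range_one_div_nat_succ_atTop
  exact h3.congr fun n => (h2 n).symm

lemma th_diff {δ : ℝ} (hδ : 0 < δ) {i N : ℕ} (hi : 1 ≤ i) (hiN : i ≤ N) :
    th δ N - th δ i ≤ (N - i : ℝ) / i := by
  induction N, hiN using Nat.le_induction with
  | base => simp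
  | succ n hn ih =>
    rw [th_succ]
    have h1 : 1 / XX δ (n + 1) ≤ 1 / (i : ℝ) := by
      apply one_div_le_one_div_of_le (by positivity)
      have : (i : ℝ) ≤ n := by exact_mod_cast hn
      unfold XX; push_cast; linarith
    have h2 : (((n + 1 : ℕ) : ℝ) - i) / i = (n - i : ℝ) / i + 1 / i := by push_cast; ring
    rw [h2]; linarith

lemma SSq_lower {δ : ℝ} (hδ : 0 < δ) {m N : ℕ} (hm : 1 ≤ m) (hmN : m ≤ N) :
    ((N : ℝ) - m) * (th δ N ^ 2 - 2 * th δ N * (N / m)) ≤ SSq δ N := by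
  have h1 : ∑ k ∈ Finset.Ico m N, (th δ N ^ 2 - 2 * th δ N * (N / m)) ≤ ∑ k ∈ Finset.Ico m N, th δ k ^ 2 := by
    apply Finset.sum_le_sum
    intro k hk
    obtain ⟨hk1, hk2⟩ := Finset.mem_Ico.1 hk
    have hd := th_diff hδ (hm.trans hk1) hk2.le
    have hm0 : (0 : ℝ) < m := by exact_mod_cast hm
    have hmk : (m : ℝ) ≤ k := by exact_mod_cast hk1
    have h2 : (N - k : ℝ) / k ≤ N / m := by
      rw [div_le_div_iff₀ (by linarith) hm0]
      have : (0 : ℝ) ≤ N := Nat.cast_nonneg N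
      nlinarith
    have h3 := th_nonneg hδ N
    have h4 : 0 ≤ (th δ N - th δ k) ^ 2 := sq_nonneg _
    nlinarith
  rw [Finset.sum_const, Nat.card_Ico, nsmul_eq_mul, Nat.cast_sub hmN] at h1
  refine h1.trans ?_
  rw [SSq, ← Finset.sum_range_add_sum_Ico _ hmN]
  have : 0 ≤ ∑ k ∈ Finset.range m, th δ k ^ 2 := Finset.sum_nonneg fun k _ => sq_nonneg _
  linarith

lemma eventually_SSq {a : ℝ} (ha : 0 < a) (ha1 : a ≤ 1) :
    ∀ᶠ N : ℕ in atTop, ∀ δ : ℝ, a ≤ δ → δ ≤ 1 → (1 - δ ^ 2) * XX δ N * th δ N ^ 2 < SSq δ N := by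
  -- N large
  set t : ℝ := a ^ 2 / 4 with ht
  have ht0 : 0 < t := by positivity
  have ht1 : t ≤ 1 / 4 := by
    rw [ht]; have : a ^ 2 ≤ 1 := pow_le_one₀ ha.le ha1
    linarith
  have hN1 : ∀ᶠ N : ℕ in atTop, 2 / t ≤ (N : ℝ) * 1 :=
    (tendsto_natCast_atTop_atTop.atTop_mul_const one_pos).eventually_ge_atTop _
  have hN2 : ∀ᶠ N : ℕ in atTop, 4 / t ^ 2 + 1 ≤ th 1 N := th_tendsto.eventually_ge_atTop _
  have hN3 : ∀ᶠ N : ℕ in atTop, 8 / t ≤ (N : ℝ) * 1 :=
    (tendsto_natCast_atTop_atTop.atTop_mul_const one_pos).eventually_ge_atTop _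
  filter_upwards [hN1, hN2, hN3] with N h1 h2 h3 δ hδa hδ1
  rw [mul_one] at h1 h3
  have hδ : 0 < δ := ha.trans_le hδa
  have hN0 : 0 < (N : ℝ) := lt_of_lt_of_le (by positivity) h1
  set T := th δ N with hT
  have hT1 : 4 / t ^ 2 + 1 ≤ T := h2.trans (th_lower hδ hδ1 N)
  have hT0 : 0 < T := lt_of_lt_of_le (by positivity) hT1
  -- m = ⌈t N⌉
  set m := ⌈t * N⌉₊ with hm
  have hm1 : t * N ≤ m := Nat.le_ceil _
  have hm2 : (m : ℝ) < t * N + 1 := Nat.ceil_lt_add_one (by positivity)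
  have htN : 2 ≤ t * N := by
    rw [div_le_iff₀ ht0] at h1; linarith
  have htN8 : 8 ≤ t * N := by
    rw [div_le_iff₀ ht0] at h3; linarith
  have hmpos : 1 ≤ m := by
    have : (1 : ℝ) ≤ m := by linarith
    exact_mod_cast this
  have hmN : m ≤ N := by
    have : (m : ℝ) ≤ N := by nlinarith
    exact_mod_cast this
  have hS := SSq_lower hδ hmpos hmN
  rw [← hT] at hS
  refine lt_of_lt_of_le ?_ hS
  -- N / m ≤ 1 / t
  have hm0 : (0 : ℝ) < m := by exact_mod_cast hmpos
  have hNm : (N : ℝ) / m ≤ 1 / t := by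
    rw [div_le_div_iff₀ hm0 ht0]; linarith
  have hb : T ^ 2 - 2 * T * (1 / t) ≤ T ^ 2 - 2 * T * (N / m) := by
    have := mul_le_mul_of_nonneg_left hNm (by positivity : 0 ≤ 2 * T)
    linarith
  have hTt : 2 * T * (1 / t) ≤ t / 2 * T ^ 2 := by
    -- 2/t ≤ t/2 T  since T ≥ 4 / t^2
    have h5 : 4 / t ^ 2 ≤ T := by linarith
    have h6 : 2 * (1 / t) ≤ t / 2 * T := by
      have := mul_le_mul_of_nonneg_left h5 (by positivity : 0 ≤ t / 2)
      have e : t / 2 * (4 / t ^ 2) = 2 * (1 / t) := by field_simp; ring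
      rw [e] at this; exact this
    nlinarith
  have hlow : (1 - t / 2) * T ^ 2 ≤ T ^ 2 - 2 * T * (N / m) := by nlinarith
  have hNm2 : (1 - t) * N - 1 ≤ (N : ℝ) - m := by linarith
  have hT2 : 0 < T ^ 2 := by positivity
  have hfac : 0 ≤ (1 - t / 2) * T ^ 2 := by
    apply mul_nonneg _ hT2.le; linarith
  have h7 : ((1 - t) * N - 1) * ((1 - t / 2) * T ^ 2) ≤ ((N : ℝ) - m) * (T ^ 2 - 2 * T * (N / m)) := by
    apply mul_le_mul hNm2 hlow hfac
    have : (m : ℝ) ≤ N := by exact_mod_cast hmN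
    linarith
  refine lt_of_lt_of_le ?_ h7
  -- (1 - δ²) (N+1+δ) < ((1-t) N - 1)(1 - t/2)
  have h8 : (1 - δ ^ 2) * XX δ N < ((1 - t) * N - 1) * (1 - t / 2) := by
    have hd2 : a ^ 2 ≤ δ ^ 2 := by
      have := mul_self_le_mul_self ha.le hδa
      nlinarith
    have hd1 : 0 ≤ 1 - δ ^ 2 := by
      have : δ ^ 2 ≤ 1 := pow_le_one₀ hδ.le hδ1
      linarith
    have hXle : XX δ N ≤ N + 2 := by unfold XX; linarith
    have h9 : (1 - δ ^ 2) * XX δ N ≤ (1 - a ^ 2) * (N + 2) := by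
      apply mul_le_mul (by linarith) hXle (XX_pos hδ N).le
      have : a ^ 2 ≤ 1 := pow_le_one₀ ha.le ha1
      linarith
    refine lt_of_le_of_lt h9 ?_
    have ha2 : a ^ 2 = 4 * t := by rw [ht]; ring
    rw [ha2]
    -- (1-4t)(N+2) < ((1-t)N - 1)(1-t/2)
    nlinarith
  calc (1 - δ ^ 2) * XX δ N * T ^ 2 < ((1 - t) * N - 1) * (1 - t / 2) * T ^ 2 :=
        mul_lt_mul_of_pos_right h8 hT2
    _ = _ := by ring

/-! ### The quadratic instance -/

lemma quad_mem {L D : ℝ} (hL : 0 < L) (hD : 0 < D) {N : ℕ} (hN : 1 ≤ N) {c : ℝ} (hc : 1 ≤ c) :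
    L * ((c - 1) * D) ∈ gradNorms L D N 1 c := by
  have hP : IsProj (univ : Set (E 1)) id := fun x => ⟨mem_univ _, fun w _ => by simp⟩
  have hg : ∀ x, gradient (pot L (id : E 1 → E 1)) x = L • x := fun x => (pot_grad hP hL x).gradient
  obtain ⟨x₀, hx₀⟩ : ∃ x₀ : E 1, ‖x₀‖ = D := by
    refine ⟨EuclideanSpace.single 0 D, ?_⟩
    simp [abs_of_pos hD]
  refine ⟨1, pot L id, x₀, le_rfl, pot_instance hP (mem_univ _) hL hx₀.le, ?_⟩
  have hgd : ∀ k, gd L 1 (pot L (id : E 1 → E 1)) x₀ (k + 1) = 0 := by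
    intro k
    induction k with
    | zero =>
      simp only [gd]
      rw [hg, smul_smul, one_div, inv_mul_cancel₀ hL.ne', one_smul, sub_self]
    | succ k ih =>
      rw [gd, ih, hg]; simp
  obtain ⟨k, rfl⟩ : ∃ k, N = k + 1 := ⟨N - 1, by omega⟩
  rw [xsig, hgd, hg]
  have : L • (x₀ + c • (0 - x₀)) = -(L * (c - 1)) • x₀ := by module
  rw [this, norm_smul, Real.norm_eq_abs, abs_neg, abs_of_nonneg (mul_nonneg hL.le (by linarith)), hx₀]
  ring

theorem fails {L D : ℝ} (hL : 0 < L) (hD : 0 < D) {a : ℝ} (ha : 0 < a) :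
    ∀ᶠ N : ℕ in atTop, ∀ c : ℝ, 1 + a / N ≤ c → L * D / (N * 1 * c + 1) < pGrad L D N 1 c := by
  set a' := min a 1 with ha'
  have ha'0 : 0 < a' := lt_min ha one_pos
  filter_upwards [eventually_SSq ha'0 (min_le_right _ _), eventually_ge_atTop 1] with N h1 hN c hc
  have hN0 : (0 : ℝ) < N := by exact_mod_cast hN
  set δ := N * (c - 1) with hδ
  have hcδ : c = 1 + δ / N := by rw [hδ]; field_simp; ring
  have haδ : a ≤ δ := by
    have : a / N ≤ c - 1 := by linarith
    rw [div_le_iff₀ hN0] at this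
    rw [hδ]; linarith
  have hc1 : 1 ≤ c := by
    have : 0 < a / N := by positivity
    linarith
  by_cases hδ1 : δ ≤ 1
  · have hS := h1 δ ((min_le_left _ _).trans haδ) hδ1
    obtain ⟨r, hr, hr2⟩ := exists_large hL hD hN (ha.trans_le haδ) hS
    rw [← hcδ] at hr hr2
    exact lt_of_lt_of_le hr2 (le_csSup (bdd L D hL N 1 c one_pos) hr)
  · push Not at hδ1
    refine lt_of_lt_of_le ?_ (le_csSup (bdd L D hL N 1 c one_pos) (quad_mem hL hD hN hc1))
    have hc1' : 0 < c - 1 := by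
      have : 0 < N * (c - 1) := by rw [← hδ]; linarith
      exact (pos_iff_pos_of_mul_pos this).1 hN0
    rw [div_lt_iff₀ (by positivity)]
    have h5 : 1 < (c - 1) * (N * 1 * c + 1) := by
      have : (c - 1) * (N * 1 * c + 1) = δ * c + (c - 1) := by rw [hδ]; ring
      rw [this]
      nlinarith
    have : L * D * 1 < L * D * ((c - 1) * (N * 1 * c + 1)) := mul_lt_mul_of_pos_left h5 (by positivity)
    linarith

theorem crit_le {L D : ℝ} (hL : 0 < L) (hD : 0 < D) {a : ℝ} (ha : 0 < a) :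
    ∀ᶠ N : ℕ in atTop, cCrit L D N 1 ≤ 1 + a / N := by
  filter_upwards [fails hL hD ha] with N h
  apply Real.sSup_le
  · rintro c ⟨hc1, hc⟩
    by_contra hn
    push Not at hn
    have := h c hn.le
    rw [hc] at this
    exact lt_irrefl _ this
  · positivity

/-- Q1 fails for every `L, D > 0`: already for `h = 1`, for every `a > 0` and all large `N` the bound
`p_grad(c) = L D / (N c + 1)` fails for every `c ≥ 1 + a / N`; in particular `c_crit(N,1) ≤ 1 + a / N`
for all large `N`, so `c_crit(N,1) = 1 + o(1/N)` and not `1 + Θ(1/N)`. -/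
theorem result (L D : ℝ) (hL : 0 < L) (hD : 0 < D) :
    ¬ Q1 L D ∧ ∀ a : ℝ, 0 < a → ∀ᶠ N : ℕ in atTop,
      cCrit L D N 1 ≤ 1 + a / N ∧
      ∀ c : ℝ, 1 + a / N ≤ c → L * D / (N * 1 * c + 1) < pGrad L D N 1 c := by
  refine ⟨?_, fun a ha => (crit_le hL hD ha).and (fails hL hD ha)⟩
  intro hQ
  obtain ⟨-, a, b, ha, -, hab⟩ := hQ 1 one_pos le_rfl
  obtain ⟨N, h1, hN⟩ := ((crit_le hL hD (half_pos ha)).and (eventually_ge_atTop 1)).exists
  have h2 := (hab N hN).1
  have hN0 : (0 : ℝ) < N := by exact_mod_cast hN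
  have h3 : a / 2 / N < a / N := div_lt_div_of_pos_right (half_lt_self ha) hN0
  linarith

end Pool.Agent.Results.MP_e1a21f_an.CritFactorTooSmall
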